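import Pool.Agent.H281R3.HT.FMain
import Pool.Agent.H281R3.HT.AMain

/-!
# MP_0c8446_ag: homological and numerical equivalence on products of varieties whose algebraic
# correspondences have a commutative commutant

Let `W` be a Weil cohomology theory with algebraically closed coefficients and with a conjugation
`S`, and let `P i` be varieties of any dimension such that any two linear operators on the
transcendental cohomology of `P i` (the orthogonal complement of the algebraic classes) which
commute with all algebraic correspondences of degree `0` commute with each other, and such that
every nonzero subspace of it which is stable under these correspondences pairs non-trivially with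
its conjugate. Then homological and numerical equivalence coincide on all `P i` if and only if they
coincide, and the standard conjecture of Lefschetz type holds for all divisors with hard Lefschetz,
on all varieties dominated by products of the `P i` (with repetitions). In particular this holds on
all varieties dominated by products of such surfaces.

The starting file `SimpleSpectrumProducts` is the case of a commutative finite group of
automorphisms with simple spectrum. The proof is `Pool.Agent.H281R3.HT.products_iff`, a theorem of
the starting library.
-/

set_option autoImplicit false

open CategoryTheory AlgebraicGeometry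

universe u v w

namespace Pool.Agent.Results.MP_0c8446_ag.CommutativeCommutant

open Pool.Agent.H914 Pool.Agent.H914.VarClass Pool.Agent.H914.VarClass.Obj
  Pool.Agent.H914.WeilCohomology Pool.Agent.H281R3.HT

variable {k : Type u} [Field k] {𝒱 : VarClass k} {ops : CycleOps 𝒱}

/-- `X` is a point, a curve or a surface with a divisor with hard Lefschetz, and homological and
numerical equivalence coincide for the divisors on `X` (Matsusaka's theorem). -/
def IsSurface (W : WeilCohomology.{u, v} ops) (X : 𝒱.Obj) : Prop :=
  X.dim ≤ 2 ∧ Pool.Agent.H447.HomEqNumIn W X 1 ∧
    ∃ D : X.Cycles, X.IsCyc 1 D ∧ HardLefschetz W X D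

/-- Homological and numerical equivalence coincide on `Y`, and the standard conjecture of Lefschetz
type holds for `Y` and all divisors with hard Lefschetz. -/
def DAndB (W : WeilCohomology.{u, v} ops) (Y : 𝒱.Obj) : Prop :=
  HomEqNum W Y ∧ ∀ D, Y.IsCyc 1 D → HardLefschetz W Y D → LefschetzB W Y D

/-- The conjectures `D` and `B` for all varieties dominated by products of varieties whose algebraic
correspondences have a commutative commutant on the transcendental cohomology. -/
theorem result (W : WeilCohomology.{u, v} ops) [IsAlgClosed W.K] (S : Conjugation W)
    {ι : Type w} (P : ι → 𝒱.Obj) (hC : ∀ i, CommutativeCommutant W (P i))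
    (hH : ∀ i, PairsWithConjugate S (P i)) :
    ((∀ i, HomEqNum W (P i)) ↔
      ∀ Q, IsProductOf (Set.range P) Q → ∀ Y, Dominates W Q Y → DAndB W Y) ∧
    ((∀ i, IsSurface W (P i)) →
      ∀ Q, IsProductOf (Set.range P) Q → ∀ Y, Dominates W Q Y → DAndB W Y) := by
  have h := products_iff S P hC hH
  refine ⟨h, fun hS => h.1 fun i => ?_⟩
  obtain ⟨h1, h2, D, hD, hHL⟩ := hS i
  exact homEqNum_surface h1 hD hHL h2

end Pool.Agent.Results.MP_0c8446_ag.CommutativeCommutant
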