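import Pool.Agent.V1141.SO.DMain

/-!
# Homological and numerical equivalence on products with varieties of orthogonal and symplectic type

Let `K` be a finitely generated field of any characteristic (not finite) with Galois group `Γ` and
cyclotomic character `χ`. Let `X i`, `i ∈ I`, be finitely many smooth projective varieties over `K`, and
let `V i` be the dual of a part (for example the primitive, or the transcendental part) of the cohomology
group of `X i` in a degree `w i`, even or odd, with coefficients in the algebraic closure `k` of `ℚ_ℓ`,
with the nondegenerate pairing `ω i` given by the Poincare pairing (`FormPiece`). Let `U` be another smooth
projective variety over `K`, and `M`, `M'` (twists of) cohomology groups of `U` in complementary degrees,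
with the intersection pairing `B`.

Suppose that only the scalars commute with a subgroup of finite index on `V i`, and that for ONE
element `γ` of `Γ`, for example a Frobenius element, the eigenvalues on each `V i` are simple, at
most one of them is self-dual, and they have only the trivial multiplicative relations with each other,
with `χ(γ)` and with the eigenvalues of `γ` on `M`.

Let `H` be the sum of the `V i`. We prove: if homological and numerical equivalence coincide for `U`
(more precisely: in the cohomology group `M`: `Separated B AU AU'`, where `AU`, `AU'` are the sets
of the classes of algebraic cycles, or the spaces spanned by them), then they coincide for the classes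
of algebraic cycles on products of the `X i` and `U` in the tensor products of `N` of the spaces `V i`
and `M`: such a class `f` (a multilinear map from `H^N` to `M`) which is orthogonal to the products
`ψ ⊗ u'`, where `ψ` is a product of pairings `ω i` and of discriminant forms and `u'` is the class of
an algebraic cycle on `U`, is zero. The intersection number of `f` and `ψ ⊗ u'` is that of `contraction f ψ`, a class on `U`,
and `u'`. The pairings are algebraic if the projection of `H(X i)` to `V i` is algebraic.

The discriminant forms have `dim V i` variables in `V i` and occur only for the `V i` with a symmetric
pairing; so there are none if all `w i` are odd, or if `N < dim V i` for all `i` with `w i` even. In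
these cases the hypothesis `Cycles.contr` (contractions with products of pairings, that is push-forwards of
intersections with algebraic cycles, preserve algebraic classes) holds for all varieties, and the
conjecture D for the product is reduced to the conjecture D for `U`; in particular it is true, for these
classes, for all products of the `X i` (`U` a point). Otherwise the discriminant classes have to be
algebraic.

The new ingredient is the nondegeneracy of the natural form on the tensor invariants of a product of
special orthogonal and symplectic Lie algebras in all degrees (`Pool.Agent.V1141.SO.ng`), with the
product formula for contractions, and the first fundamental theorem in all degrees of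
`Pool.Agent.V1141.SO.fftD`. Nothing is assumed on the conjectures of Lefschetz and Hodge type, on
the semisimplicity of the representations, or on the Tate conjecture.
-/

set_option autoImplicit false

namespace Pool.Agent.Results.MP_0c8446_ag.OneElementProducts

open Module Pool.Agent.V1141.WT Pool.Agent.V1141.OF Pool.Agent.V1141.SO

/-- **Homological and numerical equivalence on products with varieties of orthogonal and symplectic
type.** -/
theorem result {k : Type} [Field k] [CharZero k] [IsAlgClosed k] {Γ : Type} [Group Γ]
    {χ : Γ →* k} {I : Type} [Fintype I] [DecidableEq I]
    -- the duals of parts of the cohomology groups of `X i` in degree `w i`
    (P : I → FormPiece k χ) (hEnd : ∀ i, OnlyScalarEndos (P i).ρ)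
    -- the cohomology of `U`
    {M : Type} [AddCommGroup M] [Module k M] [FiniteDimensional k M] (τ : Representation k Γ M)
    -- one element of the Galois group
    (γ : Γ) (hsimple : SimpleEigenvalues P γ) (hrel : NoRelationsUpToTwist P τ γ) :
    (∀ i, Nonempty (HypBasis (P i))) ∧
    -- `D`: classes of algebraic cycles on the product and on `U`
    ∀ (h : ∀ i, HypBasis (P i)) (N : ℕ) (D : Cycles τ h N), D.HomEqNumOnU → D.HomEqNum :=
  ⟨fun i => exists_hyp P τ hEnd γ hsimple hrel i, fun h _ D hD =>
    dmain P τ hEnd γ hsimple hrel h D hD⟩

end Pool.Agent.Results.MP_0c8446_ag.OneElementProducts
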