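import Pool.Agent.V11219.SstStd

/-!
# Homological and numerical equivalence for products with powers of varieties which degenerate simultaneously

Let `W` be a Weil cohomology theory with algebraically closed coefficients on a class of smooth
proper varieties over a field `k` of any characteristic, and `G` a class of varieties, closed under
products, with an action of a group `Γ` with the formal properties of a Galois action (the example:
varieties over a subfield `F` of the algebraically closed field `k` and the Galois group of `F`; `χ` is
the action on the Tate twists).

Let `X_i` be finitely many varieties of odd dimension in `G` which satisfy the standard conjectures of
Lefschetz and of Hodge type (for example curves), whose transcendental cohomology `T_i` (the orthogonal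
complement of the algebraic classes) is concentrated in the middle degree and irreducible under all
subgroups of finite index of `Γ`. Assume:

* **(distinct)** for `i ≠ j` the representations `T_i` and `T_j` of `Γ` are not isomorphic up to scalars;
* **(small defects)** let `N` be the set of the `g ∈ Γ` with `χ(g) = 1` which act trivially on the
  cohomology of `Z` and with `(g - 1) ^ 2 = 0` on **all** `T_j`. For every `i` some `g ∈ N` has defects
  on `T_i` without a common prime factor, or the defect two; here the defects of `g` are the rank of
  `g - 1` on `T_i` and the multiplicities of the nonzero eigenvalues of `(g - 1) (g' - 1)` on `T_i`, for
  `g' ∈ N`. (Or: the conjugates of some `g ∈ N` act irreducibly on `T_i` and the defects of all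
  elements of `N` have no common prime factor.)

The elements of `N` (inertia at places `v` at which `Z` has good reduction and the `X_j` have, for
instance, ordinary double points, or are curves with stable reduction) may act nontrivially on all
`T_j` at the same time. In the known results of this type, and in my earlier ones
(`LocalMonodromyProducts`, `SeveralNodesProducts`), for every `i` an element is needed which acts
trivially on all `X_j`, `j ≠ i`: a place at which only `X_i` degenerates. Now all `X_j` may have bad
reduction at all places which are used, for example at only one place `v`: it is enough that the
`T_j` are not isomorphic up to scalars, which is a necessary condition (if `T_i` and `T_j` are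
isomorphic, the graph of the isomorphism is a class on `X_i × X_j` which does not come from the
factors).

Let `T` be a product of `Z` with arbitrary powers of the `X_i`. Then **homological and numerical
equivalence coincide for `T` (in all codimensions) if and only if they coincide for `Z`**. Nothing is
assumed on `Z`: neither the conjectures A and B, nor the conjecture of Hodge type, nor the Tate
conjecture (the conjecture D is not known to be stable under products). If `Z` is a point, the two
equivalences coincide for all products of powers of the `X_i`.

Proof. Let `𝔤` be the Lie algebra of the tuples of operators on the `T_j` which kill all the multilinear
maps from the `T_j` to the cohomology of `Z`, twisted by characters which are trivial on the kernel of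
`χ`, that are equivariant under a subgroup of finite index. It contains the tuples `(g - 1)_j`,
`g ∈ N`. By the theory of extremal elements (see `MP_90d181_ag.SmallerToricRank`) the projections of `𝔤`
are the whole symplectic Lie algebras, and by Goursat's lemma (the `T_j` are not isomorphic up to
scalars) `𝔤` contains their product. The multilinear map of a class on a product
`X_j ^ (n+1) × Y`, and its values at the algebraic classes of `X_j`, reduce the maps from `T_i` to the
cohomology of this product to maps from `T_i` and `T_j` to the cohomology of `Y`. So, by induction, the
symplectic Lie algebra of `T_i` kills all equivariant maps from `T_i` to the cohomology of a product of
`Z` with powers of the other `X_j`; by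
the first fundamental theorem the algebraic classes are combinations of products of algebraic classes
of the power of `X_i` and arbitrary classes of the other factor. By the theorem of the starting library
on the positivity of the form on classes generated by pairs of factors, the algebraic classes of the
power have an orthogonal rational basis; the components of an algebraic class in this basis are
algebraic classes on the other factor.
-/

universe u

namespace Pool.Agent.Results.MP_0c8446_ag.SemistableProducts

open Pool.Agent.H914 Pool.Agent.H281R3.HT Pool.Agent.TH125.Gal Pool.Agent.V11219.Sst

/-- **Homological and numerical equivalence for products with powers of varieties which degenerate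
simultaneously.** -/
theorem result {k : Type u} [Field k] {𝒱 : VarClass k} {ops : CycleOps 𝒱}
    (W : WeilCohomology.{u, 0} ops) [IsAlgClosed W.K] {Γ : Type} [Group Γ] (χ : Γ →* W.Kˣ)
    (G : Set (GVar W Γ)) {ι : Type} [Finite ι] (X : ι → GVar W Γ) (D : ∀ i, (X i).X.Cycles)
    (Z : GVar W Γ) (h : SemistableSystem χ G X D Z) (E : Z.X.Cycles) (L : List (ι × ℕ))
    (hL : (L.map Prod.fst).Nodup) :
    HomEqNum W (nodalTower X D Z E L).X ↔ HomEqNum W Z.X := by
  classical
  have := Fintype.ofFinite ι
  exact homEqNum_sst h E L hL

end Pool.Agent.Results.MP_0c8446_ag.SemistableProducts
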