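import Pool.Agent.V1126.BN.Word

/-!
# Homological and numerical equivalence and group relations between unipotent correspondences
-/

open CategoryTheory AlgebraicGeometry

universe u v w

namespace Pool.Agent.Results.MP_0c8446_ag.UniformWord

open Pool.Agent.H914 Pool.Agent.H914.VarClass Pool.Agent.H914.VarClass.Obj Pool.Agent.W492.BB
  Pool.Agent.W550.Corr Pool.Agent.TH133 Pool.Agent.TH829.Prime Pool.Agent.V1157.PI
  Pool.Agent.V1126.BN

/-- Let `𝒱` be a class of smooth projective varieties over a field, closed under products (for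
example all of them), `H` a Weil cohomology theory, and let `w ≠ 1` be an element of the free group
on two generators, for example their commutator. The following are equivalent:
1. numerically trivial classes on the varieties of `𝒱` are homologically trivial;
2. for all `X` in `𝒱` and all numerically trivial `W_0, W_1 ∈ CH^(dim X)(X × X)` with
   `W_0 ∘ W_0 = 0` and `W_1 ∘ W_1 = 0` the relation `w(1 + W_0, 1 + W_1) = 1` holds modulo
   homological equivalence;
3. there is some `w' ≠ 1` such that this holds for `w'`. -/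
theorem result {k : Type u} [Field k] {𝒱 : VarClass k} {C : TheoryData.{u, v, 0} 𝒱 ℚ}
    [IsChowProj C] {K : Type w} [Field K] (H : WeilTheoryData.{u, v, w} C K) [IsWeilProj H]
    (w : FreeGroup (Fin 2)) (hw : w ≠ 1) :
    List.TFAE [
      ∀ (X : 𝒱.Obj) (i : ℤ) (a : C.A X), C.Deg i a → NumTrivial C i a → H.cl a = 0,
      HomRelation H w,
      ∃ w' : FreeGroup (Fin 2), w' ≠ 1 ∧ HomRelation H w'] := by
  have hne := one_ne_zero_of H
  have hI := isAdequate_numFam hne
  have hrel : ∀ w : FreeGroup (Fin 2), HomRelation H w ↔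
      ∀ (X : 𝒱.Obj) (W : Fin 2 → C.A (X.prod X)),
      (∀ i, W i ∈ numFam C (X.prod X) X.dim ∧ C.comp (W i) (W i) = 0) →
        wordVal C W w - dg C X ∈ homFam H (X.prod X) X.dim := by
    intro w
    constructor
    · intro h X W hW
      exact ⟨wordVal_sub_gr (fun i => (hW i).1.1) w, by rw [map_sub, h X W hW, sub_self]⟩
    · intro h X W hW
      have h1 := (h X W hW).2
      rwa [map_sub, sub_eq_zero] at h1
  have h := fun {w : FreeGroup (Fin 2)} (hw : w ≠ 1) =>
    (word_iff hI (isPrime_numFam hne).one_notMem (isPrime_homFam H) hw).trans (hrel w).symm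
  tfae_have 1 → 2 := fun h1 => (h hw).1 fun X i a ha => ⟨ha.1, h1 X i a ha.1 ha.2⟩
  tfae_have 2 → 3 := fun h1 => ⟨w, hw, h1⟩
  tfae_have 3 → 1 := fun ⟨w', hw', h1⟩ X i a ha hna => ((h hw').2 h1 X i ⟨ha, hna⟩).2
  tfae_finish

end Pool.Agent.Results.MP_0c8446_ag.UniformWord
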